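import Mathlib
import Pool.Agent.N381.LB.As

/-!
MP_0430e4_lc (helper381).  Near distance `1 / 2` every fixed level of the complete linear
programming hierarchy for binary linear codes (Coregliano, Jeronimo and Jones; the same programs,
with a symmetrisation, are those of Loyfer and Linial) has the same order of exponent as the
McEliece-Rodemich-Rumsey-Welch bound: at relative distance `1 / 2 - ε` the value of level `ℓ`,
which bounds `|C| ^ ℓ`, is at least `2 ^ (c ε ^ 2 log₂ (1 / ε) ℓ n)` with an absolute `c > 0`,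
for `ε` small in terms of `ℓ` only.  The Gilbert-Varshamov exponent is of order `ε ^ 2`, so no
fixed level removes the logarithmic factor.  The same is true of the program for `ε`-balanced
codes, in which all weights above `(1 / 2 + ε) n` are excluded too.

The construction: a radial function `u` on the cube, equal to `-1` off the band
`|n - 2 |x|| ≤ 2 ε n`, at least `-1`, and up to a negligible error a combination of characters of
weights between `ε ^ 2 n / 100` and a small multiple of `n` (a smoothed cutoff of the band, built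
from a Fejér type power, corrected by a combination of Krawtchouk polynomials of low degree).
Averages of products of the values of `u` at distinct non-zero combinations of random vectors are
then tiny, by a domination argument for their characters.
-/

set_option autoImplicit false

namespace Pool.Agent.Results.MP_0430e4_lc.HighDistanceHierarchy

open Finset Filter

/-- `a` is a feasible solution of level `ℓ` of the linear programming hierarchy for binary linear
codes of length `n` and minimum distance at least `d`: a nonnegative function of `ℓ`-tuples of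
words with `a 0 = 1`, which vanishes at each tuple one of whose `𝔽₂`-linear combinations has
weight in `(0, d)`, and whose Fourier transform on `(𝔽₂ ^ n) ^ ℓ` is nonnegative. -/
def IsFeasible (ℓ n d : ℕ) (a : (Fin ℓ → Fin n → ZMod 2) → ℝ) : Prop :=
  a 0 = 1 ∧ (∀ X, 0 ≤ a X) ∧
  (∀ X, (∃ c : Fin ℓ → ZMod 2, 0 < hammingNorm (∑ i, c i • X i) ∧
    hammingNorm (∑ i, c i • X i) < d) → a X = 0) ∧
  ∀ Y : Fin ℓ → Fin n → ZMod 2,
    0 ≤ ∑ X, a X * (if ∑ i, ∑ j, X i j * Y i j = 0 then 1 else -1)

/-- **Every fixed level of the hierarchy keeps the logarithmic factor near distance one half.**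
There is an absolute `c > 0` such that for each level `ℓ ≥ 1` and each `ε` below some
`ε₀ (ℓ) > 0`, for all large `n`, the level `ℓ` program at length `n` and distance
`⌈(1 / 2 - ε) n⌉` has a feasible solution, vanishing also at each tuple one of whose combinations
has weight above `(1 / 2 + ε) n`, of total mass at least `2 ^ (c ε ^ 2 log₂ (1 / ε) ℓ n)`. -/
theorem result : ∃ c : ℝ, 0 < c ∧ ∀ ℓ : ℕ, 1 ≤ ℓ → ∃ ε₀ : ℝ, 0 < ε₀ ∧
    ∀ ε : ℝ, 0 < ε → ε < ε₀ → ∀ᶠ n : ℕ in atTop,
      ∃ a : (Fin ℓ → Fin n → ZMod 2) → ℝ, IsFeasible ℓ n ⌈(1 / 2 - ε) * n⌉₊ a ∧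
        (∀ X, (∃ b : Fin ℓ → ZMod 2, (1 / 2 + ε) * n < hammingNorm (∑ i, b i • X i)) →
          a X = 0) ∧
        (2 : ℝ) ^ (c * (ε ^ 2 * Real.logb 2 (1 / ε)) * (ℓ * n)) ≤ ∑ X, a X := by
  refine ⟨1 / 2400, by norm_num, fun ℓ hℓ => ?_⟩
  obtain ⟨ε₀, hε₀, h⟩ := N381.LB.asym hℓ
  refine ⟨ε₀, hε₀, fun ε hε0 hε => ?_⟩
  filter_upwards [h ε hε0 hε, eventually_ge_atTop 1] with n hn hn1
  have hn0 : (0 : ℝ) < n := by exact_mod_cast hn1
  obtain ⟨a, a1, a2, a3, a4, a5⟩ := hn
  have e : ∀ (X : Fin ℓ → Fin n → ZMod 2) (b : Fin ℓ → ZMod 2),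
      Matrix.vecMul b (Matrix.of X) = ∑ i, b i • X i := fun X b => Matrix.vecMul_eq_sum _ _
  refine ⟨a, ⟨a1, a2, ?_, ?_⟩, ?_, a5⟩
  · rintro X ⟨b, h0, h1⟩
    have h2 := Nat.lt_ceil.1 h1
    refine a3 (Matrix.of X) b ?_ ?_
    · rw [e]
      exact hammingNorm_pos_iff.1 h0
    · rw [e]
      refine lt_of_lt_of_le ?_ (le_abs_self _)
      unfold N381.LB.ss
      linarith
  · intro Y
    exact a4 Y
  · rintro X ⟨b, h1⟩
    refine a3 (Matrix.of X) b ?_ ?_
    · rw [e]
      intro h2
      rw [h2, hammingNorm_zero, Nat.cast_zero] at h1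
      have : 0 < (1 / 2 + ε) * (n : ℝ) := by positivity
      linarith
    · rw [e]
      refine lt_of_lt_of_le ?_ (neg_le_abs _)
      unfold N381.LB.ss
      linarith

end Pool.Agent.Results.MP_0430e4_lc.HighDistanceHierarchy
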